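import Pool.Agent.Helper4.CI.Goals

/-!
# The scaled cells
-/

namespace Mono.CI.V1

open Finset Mono Mono.CI

variable {N k : ℕ}

theorem mem_scay {φ : Option (Fin k) → Finset (Fin N → ℤ)} {L : ℕ} {v : Fin (N + k) → ℤ} :
    v ∈ scay φ L ↔ (∃ t ∈ φ none, v = lift none ((L : ℤ) • t)) ∨
      ∃ j, ∃ t ∈ φ (some j), v = lift (some j) t := by
  unfold scay
  simp only [mem_union, mem_image, mem_biUnion, mem_univ, true_and]
  constructor
  · rintro (⟨t, ht, rfl⟩ | ⟨j, t, ht, rfl⟩)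
    · exact Or.inl ⟨t, ht, rfl⟩
    · exact Or.inr ⟨j, t, ht, rfl⟩
  · rintro (⟨t, ht, rfl⟩ | ⟨j, t, ht, rfl⟩)
    · exact Or.inl ⟨t, ht, rfl⟩
    · exact Or.inr ⟨j, t, ht, rfl⟩

theorem dot_lift (κ : Fin N → ℝ) (μ : Fin k → ℝ) (c : Option (Fin k)) (u : Fin N → ℤ) :
    (Fin.append κ μ) ⬝ᵥ toR (lift c u) = κ ⬝ᵥ toR u + ∑ j, μ j * (ind c j : ℝ) := by
  simp only [dotProduct, toR, lift]
  rw [Fin.sum_univ_add]
  simp only [Fin.append_left, Fin.append_right]

theorem dot_none (κ : Fin N → ℝ) (μ : Fin k → ℝ) (u : Fin N → ℤ) :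
    (Fin.append κ μ) ⬝ᵥ toR (lift (none : Option (Fin k)) u) = κ ⬝ᵥ toR u := by
  rw [dot_lift]
  simp [ind]

theorem dot_some (κ : Fin N → ℝ) (μ : Fin k → ℝ) (j : Fin k) (u : Fin N → ℤ) :
    (Fin.append κ μ) ⬝ᵥ toR (lift (some j) u) = κ ⬝ᵥ toR u + μ j := by
  rw [dot_lift]
  congr 1
  rw [Finset.sum_eq_single j]
  · simp [ind]
  · intro i _ hi
    have : ¬ (some j = some i) := fun h => hi (Option.some.inj h).symm
    simp [ind, this]
  · simp

theorem dot_smul_toR (κ : Fin N → ℝ) (L : ℕ) (u : Fin N → ℤ) :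
    κ ⬝ᵥ toR ((L : ℤ) • u) = L * (κ ⬝ᵥ toR u) := by
  simp only [dotProduct, toR, Finset.mul_sum]
  refine Finset.sum_congr rfl fun i _ => ?_
  simp only [Pi.smul_apply, zsmul_eq_mul, Int.cast_mul, Int.cast_natCast]
  ring

theorem div_dot (κ : Fin N → ℝ) (L : ℝ) (x : Fin N → ℝ) :
    (fun i => κ i / L) ⬝ᵥ x = (κ ⬝ᵥ x) / L := by
  simp only [dotProduct, Finset.sum_div]
  refine Finset.sum_congr rfl fun i _ => ?_
  ring

theorem exists_lexmin (S : Finset (Fin N → ℤ)) (hS : S.Nonempty) (κ l : Fin N → ℝ) :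
    ∃ v ∈ S, ∀ w ∈ S, κ ⬝ᵥ toR v < κ ⬝ᵥ toR w ∨
      (κ ⬝ᵥ toR v = κ ⬝ᵥ toR w ∧ l ⬝ᵥ toR v ≤ l ⬝ᵥ toR w) := by
  obtain ⟨v, hv, hmin⟩ := Finset.exists_min_image S
    (fun v => toLex (κ ⬝ᵥ toR v, l ⬝ᵥ toR v)) hS
  refine ⟨v, hv, fun w hw => ?_⟩
  have := hmin w hw
  rwa [Prod.Lex.toLex_le_toLex] at this

theorem cellScale : CellScale := by
  classical
  intro N k A b L b' Z Φ' Φ h K φ hφ
  have hL0 : (0 : ℝ) < L := by
    have := h.two_le
    exact_mod_cast (by omega : 0 < L)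
  unfold cellsC at hφ
  rw [mem_filter, Fintype.mem_piFinset] at hφ
  obtain ⟨hsub, κ, l, hK, hnK, hpos, hne, hnone, hsome⟩ := hφ
  have hsub' : ∀ c, φ c ⊆ A c := fun c => mem_powerset.1 (hsub c)
  have hκ : ∀ i, 0 ≤ κ i := by
    intro i
    by_cases hi : i ∈ K
    · exact (hK i hi).1.ge
    · rcases hnK i hi with h1 | h1
      · exact h1.le
      · exact h1.1.ge
  choose v hv hvmin using fun j => exists_lexmin (A (some j)) (h.good.ne (some j)) κ l
  -- the estimate at the `z_j`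
  have hz : ∀ j, κ ⬝ᵥ toR (v j) < L := by
    intro j
    obtain ⟨t, ht⟩ := hne
    have htA : t ∈ A none := hsub' none ht
    obtain ⟨t', ht', hs⟩ := h.good.cond t htA j
    have h1 : κ ⬝ᵥ toR (v j) ≤ κ ⬝ᵥ toR t' := by
      rcases hvmin j t' ht' with h2 | h2
      · exact h2.le
      · exact h2.1.le
    have h3 : κ ⬝ᵥ toR t = 1 := by
      rw [hnone, mem_filter] at ht
      exact ht.2.1
    have h4 : κ ⬝ᵥ toR t' ≤ ((L : ℝ) - 1) * (κ ⬝ᵥ toR t) := by
      simp only [dotProduct, toR, Finset.mul_sum]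
      refine Finset.sum_le_sum fun i _ => ?_
      by_cases hti : t i = 0
      · rw [hs i hti, hti]
        simp
      · have e1 : (1 : ℝ) ≤ t i := by
          have := h.good.nonneg none t htA i
          have : 1 ≤ t i := by omega
          exact_mod_cast this
        have e2 : (t' i : ℝ) ≤ (L : ℝ) - 1 := by
          have := h.lt j t' ht' i
          have : t' i ≤ (L : ℤ) - 1 := by omega
          exact_mod_cast this
        have e3 : (0 : ℝ) ≤ (L : ℝ) - 1 := by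
          have := h.two_le
          have : (2 : ℝ) ≤ L := by exact_mod_cast this
          linarith
        calc κ i * (t' i : ℝ) ≤ κ i * (((L : ℝ) - 1) * (t i : ℝ)) := by
              refine mul_le_mul_of_nonneg_left ?_ (hκ i)
              nlinarith
          _ = _ := by ring
    rw [h3, mul_one] at h4
    linarith
  set kh : Fin (N + k) → ℝ := Fin.append (fun i => κ i / L) (fun j => 1 - (κ ⬝ᵥ toR (v j)) / L)
    with hkh
  set lh : Fin (N + k) → ℝ := Fin.append l (fun j => - (l ⬝ᵥ toR (v j))) with hlh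
  have k0 : ∀ t, kh ⬝ᵥ toR (lift (none : Option (Fin k)) ((L : ℤ) • t)) = κ ⬝ᵥ toR t := by
    intro t
    rw [hkh, dot_none, div_dot, dot_smul_toR]
    field_simp
  have l0 : ∀ t, lh ⬝ᵥ toR (lift (none : Option (Fin k)) ((L : ℤ) • t)) = L * (l ⬝ᵥ toR t) := by
    intro t
    rw [hlh, dot_none, dot_smul_toR]
  have k1 : ∀ j t, kh ⬝ᵥ toR (lift (some j) t) = 1 + (κ ⬝ᵥ toR t - κ ⬝ᵥ toR (v j)) / L := by
    intro j t
    rw [hkh, dot_some, div_dot]
    ring
  have l1 : ∀ j t, lh ⬝ᵥ toR (lift (some j) t) = l ⬝ᵥ toR t - l ⬝ᵥ toR (v j) := by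
    intro j t
    rw [hlh, dot_some]
    ring
  unfold cellsS
  rw [mem_filter, mem_powerset]
  refine ⟨?_, kh, lh, ?_, ?_, ?_, ?_⟩
  · intro x hx
    rw [mem_scay] at hx ⊢
    rcases hx with ⟨t, ht, rfl⟩ | ⟨j, t, ht, rfl⟩
    · exact Or.inl ⟨t, hsub' none ht, rfl⟩
    · exact Or.inr ⟨j, t, hsub' (some j) ht, rfl⟩
  · intro i hi
    unfold Kh at hi
    rw [mem_image] at hi
    obtain ⟨i₀, hi₀, rfl⟩ := hi
    rw [hkh, hlh, Fin.append_left, Fin.append_left, h.ext, (hK i₀ hi₀).1, (hK i₀ hi₀).2]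
    simp
  · intro i
    refine Fin.addCases (fun i₀ => ?_) (fun j => ?_) i
    · intro hi
      have hi₀ : i₀ ∉ K := by
        intro hi'
        exact hi (mem_image_of_mem _ hi')
      rw [hkh, hlh, Fin.append_left, Fin.append_left, h.ext]
      rcases hnK i₀ hi₀ with h1 | h1
      · exact Or.inl (div_pos h1 hL0)
      · refine Or.inr ⟨?_, h1.2⟩
        rw [h1.1, zero_div]
    · intro _
      left
      rw [hkh, Fin.append_right, sub_pos, div_lt_one hL0]
      exact hz j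
  · intro x hx
    rw [mem_scay] at hx
    rcases hx with ⟨t, ht, rfl⟩ | ⟨j, t, ht, rfl⟩
    · rw [k0, l0]
      rcases hpos t ht with h1 | h1
      · exact Or.inl h1
      · exact Or.inr ⟨h1.1, mul_nonneg hL0.le h1.2⟩
    · rw [k1, l1]
      rcases hvmin j t ht with h1 | h1
      · left
        have : 0 < (κ ⬝ᵥ toR t - κ ⬝ᵥ toR (v j)) / L := div_pos (by linarith) hL0
        linarith
      · right
        rw [h1.1, sub_self, zero_div, add_zero]
        exact ⟨rfl, by linarith [h1.2]⟩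
  · ext x
    rw [mem_filter, mem_scay, mem_scay]
    constructor
    · rintro (⟨t, ht, rfl⟩ | ⟨j, t, ht, rfl⟩)
      · rw [k0, l0]
        have ht' := ht
        rw [hnone, mem_filter] at ht'
        refine ⟨Or.inl ⟨t, ht'.1, rfl⟩, ht'.2.1, ?_⟩
        rw [ht'.2.2, mul_zero]
      · rw [k1, l1]
        have ht' := ht
        rw [hsome, mem_filter] at ht'
        have e1 := ht'.2 (v j) (hv j)
        have e2 := hvmin j t ht'.1
        have e3 : κ ⬝ᵥ toR t = κ ⬝ᵥ toR (v j) ∧ l ⬝ᵥ toR t = l ⬝ᵥ toR (v j) := by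
          rcases e1 with e1 | e1 <;> rcases e2 with e2 | e2
          · exact absurd (e1.trans e2) (lt_irrefl _)
          · exact absurd e2.1 e1.ne'
          · exact absurd e1.1 e2.ne'
          · exact ⟨e1.1, le_antisymm e1.2 e2.2⟩
        refine ⟨Or.inr ⟨j, t, ht'.1, rfl⟩, ?_, ?_⟩
        · rw [e3.1, sub_self, zero_div, add_zero]
        · rw [e3.2, sub_self]
    · rintro ⟨⟨t, ht, rfl⟩ | ⟨j, t, ht, rfl⟩, hk, hl⟩
      · rw [k0] at hk
        rw [l0] at hl
        left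
        refine ⟨t, ?_, rfl⟩
        rw [hnone, mem_filter]
        refine ⟨ht, hk, ?_⟩
        rcases mul_eq_zero.1 hl with h1 | h1
        · exact absurd h1 hL0.ne'
        · exact h1
      · rw [k1] at hk
        rw [l1] at hl
        right
        refine ⟨j, t, ?_, rfl⟩
        have e1 : κ ⬝ᵥ toR t = κ ⬝ᵥ toR (v j) := by
          have : (κ ⬝ᵥ toR t - κ ⬝ᵥ toR (v j)) / L = 0 := by linarith
          rcases div_eq_zero_iff.1 this with h1 | h1
          · linarith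
          · exact absurd h1 hL0.ne'
        have e2 : l ⬝ᵥ toR t = l ⬝ᵥ toR (v j) := by linarith
        rw [hsome, mem_filter]
        refine ⟨ht, fun w hw => ?_⟩
        rw [e1, e2]
        exact hvmin j w hw

end Mono.CI.V1
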